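import Pool.Agent.Helper16.MD.Stmts

/-! Module BLK: from windows to blocks. -/

open Finset Filter
open scoped ComplexConjugate

namespace Pool.Agent.Helper16.MD

theorem blk_tel {E : Type*} [AddCommGroup E] (u : ℕ → E) (N j : ℕ) :
    ∑ m ∈ range N, u (m + j) - ∑ m ∈ range N, u m = ∑ i ∈ range j, (u (N + i) - u i) := by
  induction j with
  | zero => simp
  | succ j ih =>
    have h1 : ∑ m ∈ range N, u (m + (j + 1)) + u j = ∑ m ∈ range N, u (m + j) + u (N + j) := by
      have h2 := Finset.sum_range_succ' (fun m => u (m + j)) N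
      have h3 := Finset.sum_range_succ (fun m => u (m + j)) N
      simp only [zero_add] at h2
      rw [← h3, h2]
      congr 1
      refine Finset.sum_congr rfl fun m _ => ?_
      congr 1; ring
    rw [Finset.sum_range_succ, ← ih]
    have h4 : ∑ m ∈ range N, u (m + (j + 1)) = ∑ m ∈ range N, u (m + j) + u (N + j) - u j :=
      eq_sub_of_add_eq h1
    rw [h4]; abel

theorem blk_bad (a H L N : ℕ) (hH : 1 ≤ H) :
    (((range N).filter fun m => (m + a) / H ≠ (m + L + a) / H).card : ℝ) ≤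
      ((N : ℝ) / H + 1) * L := by
  have hH' : (0 : ℝ) < H := by exact_mod_cast hH
  have h1 : (((range N).filter fun m => (m + a) / H ≠ (m + L + a) / H).card : ℝ) ≤
      ∑ m ∈ range N, ((((m + L + a) / H : ℕ) : ℝ) - (((m + a) / H : ℕ) : ℝ)) := by
    rw [Finset.card_filter]
    rw [Nat.cast_sum]
    refine Finset.sum_le_sum fun m _ => ?_
    have hle : (m + a) / H ≤ (m + L + a) / H := Nat.div_le_div_right (by omega)
    have hle' : (((m + a) / H : ℕ) : ℝ) ≤ (((m + L + a) / H : ℕ) : ℝ) := by exact_mod_cast hle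
    split_ifs with h
    · have h2 : (m + a) / H + 1 ≤ (m + L + a) / H := by omega
      have h3 : (((m + a) / H : ℕ) : ℝ) + 1 ≤ (((m + L + a) / H : ℕ) : ℝ) := by exact_mod_cast h2
      push_cast
      linarith
    · push_cast
      linarith
  have h2 := blk_tel (fun m => (((m + a) / H : ℕ) : ℝ)) N L
  rw [Finset.sum_sub_distrib, h2] at h1
  refine h1.trans ?_
  have h3 : ∀ i ∈ range L, ((((N + i + a) / H : ℕ) : ℝ) - (((i + a) / H : ℕ) : ℝ)) ≤
      (N : ℝ) / H + 1 := by
    intro i _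
    have h4 : (((N + i + a) / H : ℕ) : ℝ) ≤ ((N + i + a : ℕ) : ℝ) / H := Nat.cast_div_le
    have h5 : (i + a) < H * ((i + a) / H + 1) := Nat.lt_mul_div_succ _ (by omega)
    have h6 : ((i + a : ℕ) : ℝ) < H * ((((i + a) / H : ℕ) : ℝ) + 1) := by exact_mod_cast h5
    have h7 : ((i + a : ℕ) : ℝ) / H < (((i + a) / H : ℕ) : ℝ) + 1 := by
      rw [div_lt_iff₀ hH']; linarith
    have h8 : ((N + i + a : ℕ) : ℝ) / H = (N : ℝ) / H + ((i + a : ℕ) : ℝ) / H := by
      rw [← add_div]; push_cast; ring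
    linarith
  calc ∑ i ∈ range L, ((((N + i + a) / H : ℕ) : ℝ) - (((i + a) / H : ℕ) : ℝ))
      ≤ ∑ _i ∈ range L, ((N : ℝ) / H + 1) := Finset.sum_le_sum h3
    _ = ((N : ℝ) / H + 1) * L := by
      rw [Finset.sum_const, card_range, nsmul_eq_mul]; ring

theorem st_BLK : ST_BLK := by
  intro c ω a H L N hH hL hc hω
  have hL' : (1 : ℝ) ≤ L := by exact_mod_cast hL
  have hH' : (0 : ℝ) < H := by exact_mod_cast hH
  set u : ℕ → ℂ := fun x => ((ArithmeticFunction.moebius x : ℤ) : ℂ) *
    (c x * ω ((x + a) / H)) with hu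
  set v : ℕ → ℂ := fun x => ((ArithmeticFunction.moebius x : ℤ) : ℂ) * c x with hv
  have hmu : ∀ x : ℕ, ‖((ArithmeticFunction.moebius x : ℤ) : ℂ)‖ ≤ 1 := by
    intro x
    rw [Complex.norm_intCast]
    have := ArithmeticFunction.abs_moebius_le_one (n := x)
    exact_mod_cast this
  have hu1 : ∀ x, ‖u x‖ ≤ 1 := by
    intro x
    rw [hu]
    simp only [norm_mul]
    have h1 := hmu x
    have h2 := hc x
    have h3 := hω ((x + a) / H)
    have h4 : ‖c x‖ * ‖ω ((x + a) / H)‖ ≤ 1 :=
      mul_le_one₀ h2 (norm_nonneg _) h3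
    exact mul_le_one₀ h1 (by positivity) h4
  have hMS : MS (fun x => c x * ω ((x + a) / H)) N = ∑ x ∈ range N, u x + u N := by
    unfold MS
    rw [← Finset.sum_range_succ]
    refine Finset.sum_subset ?_ ?_
    · intro x hx
      rw [Finset.mem_Icc] at hx
      rw [Finset.mem_range]; omega
    · intro x hx hx'
      rw [Finset.mem_range] at hx
      rw [Finset.mem_Icc] at hx'
      have h0 : x = 0 := by omega
      subst h0
      simp
  -- the shifts
  have hsh : (L : ℂ) * ∑ x ∈ range N, u x =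
      (∑ m ∈ range N, ∑ j ∈ range L, u (m + j)) -
        ∑ j ∈ range L, ∑ i ∈ range j, (u (N + i) - u i) := by
    rw [Finset.sum_comm, ← Finset.sum_sub_distrib]
    have : ∀ j ∈ range L, (∑ m ∈ range N, u (m + j)) - ∑ i ∈ range j, (u (N + i) - u i) =
        ∑ x ∈ range N, u x := by
      intro j _
      rw [← blk_tel u N j]; ring
    rw [Finset.sum_congr rfl this, Finset.sum_const, card_range, nsmul_eq_mul]
  have herr : ‖∑ j ∈ range L, ∑ i ∈ range j, (u (N + i) - u i)‖ ≤ 2 * L * L := by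
    calc ‖∑ j ∈ range L, ∑ i ∈ range j, (u (N + i) - u i)‖
        ≤ ∑ j ∈ range L, ‖∑ i ∈ range j, (u (N + i) - u i)‖ := norm_sum_le _ _
      _ ≤ ∑ j ∈ range L, (2 * (L : ℝ)) := by
        refine Finset.sum_le_sum fun j hj => ?_
        have hj' : (j : ℝ) ≤ L := by
          have := Finset.mem_range.1 hj
          exact_mod_cast this.le
        calc ‖∑ i ∈ range j, (u (N + i) - u i)‖
            ≤ ∑ i ∈ range j, ‖u (N + i) - u i‖ := norm_sum_le _ _
          _ ≤ ∑ _i ∈ range j, (2 : ℝ) := by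
            refine Finset.sum_le_sum fun i _ => ?_
            have := norm_sub_le (u (N + i)) (u i)
            linarith [hu1 (N + i), hu1 i]
          _ = 2 * j := by rw [Finset.sum_const, card_range, nsmul_eq_mul]; ring
          _ ≤ 2 * L := by linarith
      _ = 2 * L * L := by rw [Finset.sum_const, card_range, nsmul_eq_mul]; ring
  -- the windows
  have hwin : ∀ m ∈ range N, ‖∑ j ∈ range L, u (m + j)‖ ≤
      ‖∑ j ∈ range L, v (m + j)‖ +
        (if (m + a) / H ≠ (m + L + a) / H then (L : ℝ) else 0) := by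
    intro m _
    split_ifs with h
    · have h1 : ‖∑ j ∈ range L, u (m + j)‖ ≤ L := by
        calc ‖∑ j ∈ range L, u (m + j)‖ ≤ ∑ j ∈ range L, ‖u (m + j)‖ := norm_sum_le _ _
          _ ≤ ∑ _j ∈ range L, (1 : ℝ) := Finset.sum_le_sum fun j _ => hu1 _
          _ = L := by rw [Finset.sum_const, card_range, nsmul_eq_mul, mul_one]
      have h2 : 0 ≤ ‖∑ j ∈ range L, v (m + j)‖ := norm_nonneg _
      linarith
    · push Not at h
      have h1 : ∀ j ∈ range L, u (m + j) = v (m + j) * ω ((m + a) / H) := by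
        intro j hj
        have hj' := Finset.mem_range.1 hj
        have h2 : (m + a) / H ≤ (m + j + a) / H := Nat.div_le_div_right (by omega)
        have h3 : (m + j + a) / H ≤ (m + L + a) / H := Nat.div_le_div_right (by omega)
        have h4 : (m + j + a) / H = (m + a) / H := by omega
        simp only [hu, hv, h4]
        ring
      rw [Finset.sum_congr rfl h1, ← Finset.sum_mul, norm_mul, add_zero]
      exact mul_le_of_le_one_right (norm_nonneg _) (hω _)
  have hsum : ∑ m ∈ range N, ‖∑ j ∈ range L, u (m + j)‖ ≤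
      (∑ m ∈ range N, ‖∑ j ∈ range L, v (m + j)‖) + ((N : ℝ) / H + 1) * L * L := by
    refine (Finset.sum_le_sum hwin).trans ?_
    rw [Finset.sum_add_distrib]
    have h1 : ∑ m ∈ range N, (if (m + a) / H ≠ (m + L + a) / H then (L : ℝ) else 0) =
        (((range N).filter fun m => (m + a) / H ≠ (m + L + a) / H).card : ℝ) * L := by
      rw [← Finset.sum_filter, Finset.sum_const, nsmul_eq_mul]
    rw [h1]
    have h2 := blk_bad a H L N hH
    have h3 := mul_le_mul_of_nonneg_right h2 (by linarith : (0 : ℝ) ≤ L)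
    linarith
  have htot : ‖(L : ℂ) * ∑ x ∈ range N, u x‖ ≤
      (∑ m ∈ range N, ‖∑ j ∈ range L, v (m + j)‖) + ((N : ℝ) / H + 1) * L * L + 2 * L * L := by
    rw [hsh]
    refine (norm_sub_le _ _).trans ?_
    have := (norm_sum_le (range N) fun m => ∑ j ∈ range L, u (m + j)).trans hsum
    linarith
  rw [norm_mul, Complex.norm_natCast] at htot
  have hdiv : ‖∑ x ∈ range N, u x‖ ≤
      (∑ m ∈ range N, ‖∑ j ∈ range L, v (m + j)‖) / L + ((N : ℝ) / H + 1) * L + 2 * L := by
    have hL0 : (0 : ℝ) < L := by linarith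
    have h1 : ‖∑ x ∈ range N, u x‖ ≤ ((∑ m ∈ range N, ‖∑ j ∈ range L, v (m + j)‖) +
        ((N : ℝ) / H + 1) * L * L + 2 * L * L) / L := by
      rw [le_div_iff₀ hL0]; linarith
    have h2 : ((∑ m ∈ range N, ‖∑ j ∈ range L, v (m + j)‖) +
        ((N : ℝ) / H + 1) * L * L + 2 * L * L) / L =
        (∑ m ∈ range N, ‖∑ j ∈ range L, v (m + j)‖) / L + ((N : ℝ) / H + 1) * L + 2 * L := by
      field_simp
    linarith
  rw [hMS]
  have h5 := norm_add_le (∑ x ∈ range N, u x) (u N)
  have h6 := hu1 N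
  have h7 : ((N : ℝ) / H + 2) * L = ((N : ℝ) / H + 1) * L + L := by ring
  rw [h7]
  linarith

end Pool.Agent.Helper16.MD
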