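import Pool.Agent.Helper16.MD.Stmts

/-! Module STA: compactness. -/

open Finset Filter
open scoped ComplexConjugate

namespace Pool.Agent.Helper16.MD

open Pool.Agent.Helper51.Mo (PM pw len Lev Orth)

theorem sta_cont : Continuous ee := by
  unfold ee
  fun_prop

theorem sta_ee_add_int (x : ℝ) (m : ℤ) : ee (x + m) = ee x := by
  unfold ee
  rw [Complex.exp_eq_exp_iff_exists_int]
  refine ⟨m, ?_⟩
  push_cast
  ring

theorem sta_norm (x : ℝ) : ‖ee x‖ = 1 := by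
  unfold ee
  exact Complex.norm_exp_ofReal_mul_I _

theorem sta_AW_cont (β : ℕ → ℕ → ℝ) (ℓ : ℕ → ℕ) (i : ℕ) : Continuous (AW β ℓ i) := by
  unfold AW
  refine Continuous.norm (Continuous.div_const (continuous_finset_sum _ fun x _ => ?_) _)
  exact continuous_const.mul (sta_cont.comp (by fun_prop))

theorem sta_AW_per (β : ℕ → ℕ → ℝ) (ℓ : ℕ → ℕ) (i : ℕ) (θ : ℝ) (m : ℤ) :
    AW β ℓ i (θ + m) = AW β ℓ i θ := by
  unfold AW
  congr 2
  refine Finset.sum_congr rfl fun x _ => ?_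
  have h : (θ + m) * (x : ℝ) = θ * x + ((m * x : ℤ) : ℝ) := by push_cast; ring
  rw [h, sta_ee_add_int]

theorem sta_AW_nonneg (β : ℕ → ℕ → ℝ) (ℓ : ℕ → ℕ) (i : ℕ) (θ : ℝ) : 0 ≤ AW β ℓ i θ :=
  norm_nonneg _

theorem sta_AW_le (β : ℕ → ℕ → ℝ) (ℓ : ℕ → ℕ) (hβ : ∀ i n, PM (β i n)) (hℓ : ∀ i, 1 ≤ ℓ i)
    (i : ℕ) (θ : ℝ) : AW β ℓ i θ ≤ 1 := by
  unfold AW
  have h0 : (0 : ℝ) < ℓ i := by exact_mod_cast hℓ i
  rw [norm_div, Complex.norm_natCast, div_le_one h0]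
  calc ‖∑ x ∈ range (ℓ i), ((β i x : ℝ) : ℂ) * ee (θ * x)‖
      ≤ ∑ x ∈ range (ℓ i), ‖((β i x : ℝ) : ℂ) * ee (θ * x)‖ := norm_sum_le _ _
    _ = ∑ _x ∈ range (ℓ i), (1 : ℝ) := by
      refine Finset.sum_congr rfl fun x _ => ?_
      rw [norm_mul, sta_norm, mul_one, Complex.norm_real, Real.norm_eq_abs, (hβ i x).abs]
    _ = ℓ i := by simp

theorem st_STA : ST_STA := by
  intro β ℓ s c hℓ hβ h
  set g : ℕ → ℝ → ℝ := fun k θ => ∏ i ∈ range k, AW β ℓ (s + i) (θ * len ℓ s i) with hg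
  have hgc : ∀ k, Continuous (g k) := by
    intro k
    refine continuous_finset_prod _ fun i _ => ?_
    exact (sta_AW_cont β ℓ (s + i)).comp (by fun_prop)
  have hgper : ∀ k θ (m : ℤ), g k (θ + m) = g k θ := by
    intro k θ m
    refine Finset.prod_congr rfl fun i _ => ?_
    have h1 : (θ + m) * (len ℓ s i : ℝ) = θ * len ℓ s i + ((m * (len ℓ s i : ℕ) : ℤ) : ℝ) := by
      push_cast; ring
    rw [h1, sta_AW_per]
  have hg0 : ∀ k θ, 0 ≤ g k θ := fun k θ => Finset.prod_nonneg fun i _ => sta_AW_nonneg _ _ _ _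
  have hgs : ∀ k θ, g (k + 1) θ ≤ g k θ := by
    intro k θ
    simp only [hg, Finset.prod_range_succ]
    exact mul_le_of_le_one_right (hg0 k θ) (sta_AW_le β ℓ hβ hℓ _ _)
  have key := IsCompact.nonempty_iInter_of_sequence_nonempty_isCompact_isClosed
    (fun k => {θ : ℝ | θ ∈ Set.Icc (0 : ℝ) 1 ∧ c ≤ g k θ})
    (fun k θ hθ => ⟨hθ.1, hθ.2.trans (hgs k θ)⟩)
    (fun k => by
      obtain ⟨θ, hθ⟩ := h k
      refine ⟨Int.fract θ, ⟨Int.fract_nonneg θ, (Int.fract_lt_one θ).le⟩, ?_⟩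
      have h1 : Int.fract θ = θ + ((-⌊θ⌋ : ℤ) : ℝ) := by
        push_cast
        rw [Int.fract]; ring
      rw [h1, hgper]
      exact hθ)
    (by
      refine IsCompact.of_isClosed_subset (isCompact_Icc (a := (0 : ℝ)) (b := 1)) ?_
        fun θ hθ => hθ.1
      exact isClosed_Icc.inter (isClosed_le continuous_const (hgc 0)))
    (fun k => isClosed_Icc.inter (isClosed_le continuous_const (hgc k)))
  obtain ⟨θ, hθ⟩ := key
  refine ⟨θ, fun k => ?_⟩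
  exact (Set.mem_iInter.1 hθ k).2

end Pool.Agent.Helper16.MD
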